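import Pool.Agent.Helper57.NS.Defs
import Pool.Agent.Helper38.NR.Phi
import Pool.Agent.Helper93.NR.Ker

/-!
# NS, blocks F1, F2: the test function
-/

set_option autoImplicit false
open MeasureTheory Set Filter Topology
open Pool.Agent.Helper54.LG (qk qk_zero_nonneg)
open Pool.Agent.Helper57.NS
open Pool.Agent.Helper93.NR (KK KK_le KK_nonneg qk_closed')

namespace Pool.Agent.Helper38.NS

variable {k : ℝ}

theorem mem_sc {L : ℝ} {j : ℕ} (hj : j ∈ Sc k L) : L ^ k ≤ (1 + k) ^ j ∧ (1 + k) ^ j ≤ L ^ (1 - k) := by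
  unfold Sc at hj
  exact (Finset.mem_filter.1 hj).2

/-- there are scales -/
theorem sc_ne (hk : 0 < k) (hk8 : k ≤ 1 / 8) {L : ℝ} (hL : 4 ≤ L) : (Sc k L).Nonempty := by
  have hL0 : 0 < L := by linarith
  have hex : ∃ j : ℕ, L ^ k ≤ (1 + k) ^ j := by
    obtain ⟨n, hn⟩ := pow_unbounded_of_one_lt (L ^ k) (by linarith : 1 < 1 + k)
    exact ⟨n, hn.le⟩
  classical
  obtain ⟨j, hj, hmin⟩ : ∃ j : ℕ, L ^ k ≤ (1 + k) ^ j ∧ ∀ i < j, (1 + k) ^ i < L ^ k :=
    ⟨Nat.find hex, Nat.find_spec hex, fun i hi => not_le.1 (Nat.find_min hex hi)⟩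
  have hpow0 : 0 < L ^ k := Real.rpow_pos_of_pos hL0 _
  have h1 : (1 + k) ^ j ≤ 2 * L ^ k ∨ j = 0 := by
    rcases Nat.eq_zero_or_pos j with h | h
    · exact Or.inr h
    · left
      have h2 := hmin (j - 1) (by omega)
      have e : j = (j - 1) + 1 := by omega
      rw [e, pow_succ]
      nlinarith
  have h2 : 2 * L ^ k ≤ L ^ (1 - k) := by
    have h3 : L ^ (1 - k) = L ^ (1 - 2 * k) * L ^ k := by
      rw [← Real.rpow_add hL0]
      congr 1
      ring
    have h4 : 2 ≤ L ^ (1 - 2 * k) := by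
      have h5 : (4:ℝ) ^ (1 / 2 : ℝ) = 2 := by
        rw [← Real.sqrt_eq_rpow, show (4:ℝ) = 2 ^ 2 by norm_num, Real.sqrt_sq (by norm_num)]
      calc (2:ℝ) = 4 ^ (1 / 2 : ℝ) := h5.symm
        _ ≤ L ^ (1 / 2 : ℝ) := Real.rpow_le_rpow (by norm_num) hL (by norm_num)
        _ ≤ L ^ (1 - 2 * k) := Real.rpow_le_rpow_of_exponent_le (by linarith) (by linarith)
    rw [h3]
    exact mul_le_mul_of_nonneg_right h4 hpow0.le
  have h3 : (1 + k) ^ j ≤ L ^ (1 - k) := by
    rcases h1 with h | h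
    · exact h.trans h2
    · rw [h, pow_zero]
      exact Real.one_le_rpow (by linarith) (by linarith)
  refine ⟨j, ?_⟩
  unfold Sc
  rw [Finset.mem_filter, Finset.mem_range, Nat.lt_succ_iff, Nat.le_floor_iff (by positivity)]
  refine ⟨?_, hj, h3⟩
  rw [le_div_iff₀ hk]
  have h4 : 1 + (j:ℝ) * k ≤ (1 + k) ^ j := one_add_mul_le_pow (by linarith) j
  have h5 : L ^ (1 - k) ≤ L := by
    calc L ^ (1 - k) ≤ L ^ (1:ℝ) := Real.rpow_le_rpow_of_exponent_le (by linarith) (by linarith)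
      _ = L := Real.rpow_one L
  linarith

theorem wk_nonneg (k L : ℝ) : 0 ≤ wk k L := by
  unfold wk
  positivity

theorem wk_card (hk : 0 < k) (hk8 : k ≤ 1 / 8) {L : ℝ} (hL : 4 ≤ L) : wk k L * (Sc k L).card = 3 / 2 := by
  have : (0:ℝ) < ((Sc k L).card : ℝ) := by exact_mod_cast Finset.card_pos.2 (sc_ne hk hk8 hL)
  unfold wk
  field_simp

theorem wk_card_le (k L : ℝ) : wk k L * (Sc k L).card ≤ 3 / 2 := by
  rcases Nat.eq_zero_or_pos (Sc k L).card with h | h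
  · rw [h]
    simp
    norm_num
  · have : (0:ℝ) < ((Sc k L).card : ℝ) := by exact_mod_cast h
    unfold wk
    have e : 3 / (2 * ((Sc k L).card : ℝ)) * ((Sc k L).card : ℝ) = 3 / 2 := by field_simp
    rw [e]

theorem ph_eq (k L x : ℝ) : ph k L x = wk k L * ∑ j ∈ Sc k L, KK ((1 + k) ^ j) x := rfl

/-- the mean of bounds -/
theorem mean_le {f : ℕ → ℝ} {B L : ℝ} (hB : 0 ≤ B) (h : ∀ j ∈ Sc k L, f j ≤ B) :
    wk k L * ∑ j ∈ Sc k L, f j ≤ 3 / 2 * B := by
  have h1 : ∑ j ∈ Sc k L, f j ≤ (Sc k L).card * B := by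
    refine (Finset.sum_le_sum h).trans (le_of_eq ?_)
    rw [Finset.sum_const, nsmul_eq_mul]
  calc wk k L * ∑ j ∈ Sc k L, f j ≤ wk k L * ((Sc k L).card * B) := mul_le_mul_of_nonneg_left h1 (wk_nonneg k L)
    _ = (wk k L * (Sc k L).card) * B := by ring
    _ ≤ 3 / 2 * B := mul_le_mul_of_nonneg_right (wk_card_le k L) hB

/-- F1: the kernel near `0` -/
theorem ph_near {k : ℝ} (hk : 0 < k) (hk8 : k ≤ 1 / 8) : ∃ C : ℝ, 1 ≤ C ∧ ∀ L x : ℝ, C ≤ L → |x| ≤ L ^ (k / 8) →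
    0 ≤ 1 - ph k L x ∧ 1 - ph k L x ≤ C * L ^ (-(7 / 4 * k)) := by
  refine ⟨60, by norm_num, fun L x hL hx => ?_⟩
  have hL0 : 0 < L := by linarith
  have h1 : 1 - ph k L x = wk k L * ∑ j ∈ Sc k L, (2 / 3 - qk 0 (2 * Real.pi * x / (1 + k) ^ j)) := by
    rw [Finset.sum_sub_distrib, Finset.sum_const, nsmul_eq_mul, mul_sub, ← mul_assoc, wk_card hk hk8 (by linarith)]
    unfold ph
    norm_num
  rw [h1]
  constructor
  · exact mul_nonneg (wk_nonneg k L) (Finset.sum_nonneg fun j _ => (Pool.Agent.Helper38.NR.qk_near _).1)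
  · refine (mean_le (B := 40 * L ^ (-(7 / 4 * k))) (by positivity) fun j hj => ?_).trans (le_of_eq (by ring))
    refine (Pool.Agent.Helper38.NR.qk_near _).2.trans ?_
    have h3 := (mem_sc hj).1
    have h4 : x ^ 2 ≤ L ^ (k / 4) := by
      rw [← sq_abs]
      refine (pow_le_pow_left₀ (abs_nonneg _) hx 2).trans (le_of_eq ?_)
      rw [← Real.rpow_natCast, ← Real.rpow_mul hL0.le]
      congr 1
      push_cast
      ring
    have h5 : L ^ (2 * k) ≤ ((1 + k) ^ j) ^ 2 := by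
      refine le_trans (le_of_eq ?_) (pow_le_pow_left₀ (by positivity) h3 2)
      rw [← Real.rpow_natCast, ← Real.rpow_mul hL0.le]
      congr 1
      push_cast
      ring
    have h6 : Real.pi ^ 2 ≤ 10 := by nlinarith [Real.pi_lt_d2, Real.pi_pos]
    rw [div_pow, mul_pow, mul_pow]
    have h7 : L ^ (-(7 / 4 * k)) = L ^ (k / 4) / L ^ (2 * k) := by
      rw [← Real.rpow_sub hL0]
      congr 1
      ring
    rw [h7, ← mul_div_assoc]
    have h8 : 0 < L ^ (2 * k) := Real.rpow_pos_of_pos hL0 _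
    refine div_le_div₀ (by positivity) ?_ h8 h5
    nlinarith [sq_nonneg x, Real.pi_pos]

/-- the derivative of the kernel -/
theorem qk_deriv {b : ℝ} (hb : 0 < b) : ∃ D : ℝ, HasDerivAt (qk 0) D b ∧ |D| ≤ 24 / b ^ 3 := by
  have h1 : HasDerivAt (fun b : ℝ => 4 * (b - Real.sin b) / b ^ 3)
      ((4 * (1 - Real.cos b) * b ^ 3 - 4 * (b - Real.sin b) * (3 * b ^ 2)) / (b ^ 3) ^ 2) b := by
    have h2 := ((hasDerivAt_id b).sub (Real.hasDerivAt_sin b)).const_mul 4
    have h3 := hasDerivAt_pow 3 b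
    have h4 := h2.div h3 (by positivity)
    refine h4.congr_deriv ?_
    norm_num
  refine ⟨_, h1.congr_of_eventuallyEq ?_, ?_⟩
  · filter_upwards [Ioi_mem_nhds hb] with x hx
    exact qk_closed' hx
  · have hs : |Real.sin b| ≤ b := by
      have := Real.abs_sin_le_abs (x := b)
      rwa [abs_of_pos hb] at this
    rw [abs_le] at hs
    have hc1 := Real.neg_one_le_cos b
    have hc2 := Real.cos_le_one b
    have e : (4 * (1 - Real.cos b) * b ^ 3 - 4 * (b - Real.sin b) * (3 * b ^ 2)) / (b ^ 3) ^ 2 =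
        4 * ((1 - Real.cos b) * b - 3 * (b - Real.sin b)) / b ^ 4 := by
      field_simp
    rw [e, abs_div, abs_of_pos (by positivity : 0 < b ^ 4), div_le_div_iff₀ (by positivity) (by positivity)]
    have h5 : |4 * ((1 - Real.cos b) * b - 3 * (b - Real.sin b))| ≤ 24 * b := by
      rw [abs_le]
      constructor <;> nlinarith
    calc |4 * ((1 - Real.cos b) * b - 3 * (b - Real.sin b))| * b ^ 3 ≤ 24 * b * b ^ 3 := by gcongr
      _ = 24 * b ^ 4 := by ring

/-- the kernel of the scale `M` is Lipschitz far out -/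
theorem KK_lip {M x y : ℝ} (hM : 0 < M) (hx : 0 < x) (hxy : x ≤ y) : |KK M x - KK M y| ≤ M ^ 2 * (y - x) / x ^ 3 := by
  have hpi := Real.pi_pos
  have hd : ∀ z ∈ Icc x y, ∃ D : ℝ, HasDerivAt (KK M) D z ∧ |D| ≤ M ^ 2 / x ^ 3 := by
    intro z hz
    have hz0 : 0 < z := lt_of_lt_of_le hx hz.1
    obtain ⟨D, hD, hD2⟩ := qk_deriv (b := 2 * Real.pi * z / M) (by positivity)
    have h1 : HasDerivAt (fun z : ℝ => 2 * Real.pi * z / M) (2 * Real.pi / M) z := by
      have h2 := ((hasDerivAt_id z).const_mul (2 * Real.pi)).div_const M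
      simpa using h2
    refine ⟨D * (2 * Real.pi / M), hD.comp z h1, ?_⟩
    rw [abs_mul, abs_of_pos (by positivity : 0 < 2 * Real.pi / M)]
    have h2 : |D| * (2 * Real.pi / M) ≤ 24 / (2 * Real.pi * z / M) ^ 3 * (2 * Real.pi / M) :=
      mul_le_mul_of_nonneg_right hD2 (by positivity)
    refine h2.trans ?_
    have e : 24 / (2 * Real.pi * z / M) ^ 3 * (2 * Real.pi / M) = 6 / Real.pi ^ 2 * (M ^ 2 / z ^ 3) := by
      field_simp
      ring
    rw [e]
    have h3 : 6 / Real.pi ^ 2 ≤ 1 := by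
      rw [div_le_one (by positivity)]
      nlinarith [Real.pi_gt_three]
    have h4 : M ^ 2 / z ^ 3 ≤ M ^ 2 / x ^ 3 := by
      gcongr
      exact hz.1
    have h5 : 0 ≤ M ^ 2 / z ^ 3 := by positivity
    calc 6 / Real.pi ^ 2 * (M ^ 2 / z ^ 3) ≤ 1 * (M ^ 2 / z ^ 3) := mul_le_mul_of_nonneg_right h3 h5
      _ ≤ M ^ 2 / x ^ 3 := by rw [one_mul]; exact h4
  choose! D hD using hd
  have h := (convex_Icc x y).norm_image_sub_le_of_norm_hasDerivWithin_le (f := KK M) (f' := D) (C := M ^ 2 / x ^ 3)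
    (fun z hz => (hD z hz).1.hasDerivWithinAt) (fun z hz => (hD z hz).2) ⟨hxy, le_rfl⟩ ⟨le_rfl, hxy⟩
  rw [Real.norm_eq_abs, Real.norm_eq_abs, abs_sub_comm x y, abs_of_nonneg (by linarith : 0 ≤ y - x)] at h
  refine h.trans (le_of_eq ?_)
  ring

/-- F2: the kernel, `0 ≤ ph ≤ C (L^(1-k)/x)^2`, Lipschitz beyond `L` (`|q'(b)| ≤ C/(1+|b|)^3`) and its integral -/
theorem ph_far {k : ℝ} (hk : 0 < k) (hk8 : k ≤ 1 / 8) : ∃ C : ℝ, 1 ≤ C ∧ ∀ L x y : ℝ, C ≤ L → 0 < x → x ≤ y →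
    0 ≤ ph k L x ∧ ph k L x ≤ C * (L ^ (1 - k) / x) ^ 2 ∧
    |ph k L x - ph k L y| ≤ C * ((L ^ (1 - k)) ^ 2 * (y - x) / x ^ 3) := by
  refine ⟨3 / 2, by norm_num, fun L x y hL hx hxy => ?_⟩
  have hL0 : 0 < L := by linarith
  have hP : 0 < L ^ (1 - k) := Real.rpow_pos_of_pos hL0 _
  have hM : ∀ j ∈ Sc k L, ((1 + k) ^ j) ^ 2 ≤ (L ^ (1 - k)) ^ 2 := fun j hj =>
    pow_le_pow_left₀ (by positivity) (mem_sc hj).2 2
  refine ⟨?_, ?_, ?_⟩
  · exact mul_nonneg (wk_nonneg k L) (Finset.sum_nonneg fun j _ => qk_zero_nonneg _)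
  · rw [ph_eq]
    refine mean_le (by positivity) fun j hj => ?_
    refine (KK_le (by positivity) hx).trans ?_
    rw [div_pow]
    exact div_le_div_of_nonneg_right (hM j hj) (by positivity)
  · rw [ph_eq, ph_eq, ← mul_sub, ← Finset.sum_sub_distrib, abs_mul, abs_of_nonneg (wk_nonneg k L)]
    have hyx : 0 ≤ y - x := by linarith
    refine (mul_le_mul_of_nonneg_left (Finset.abs_sum_le_sum_abs _ _) (wk_nonneg k L)).trans
      (mean_le (by positivity) fun j hj => ?_)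
    refine (KK_lip (by positivity) hx hxy).trans ?_
    have := hM j hj
    gcongr

theorem KK_full {M : ℝ} (hM : 0 < M) : Integrable (KK M) ∧ ∫ x, KK M x = M := by
  have hpi0 := Real.pi_pos
  obtain ⟨h1, h2, -⟩ := Pool.Agent.Helper24.UG.qk_mass (X := 2 * Real.pi / M) (by positivity)
  have e1 : ∀ x : ℝ, 2 * Real.pi / M / (2 * Real.pi) * qk 0 (2 * Real.pi / M * x) = M⁻¹ * KK M x := by
    intro x
    unfold KK
    rw [show 2 * Real.pi / M * x = 2 * Real.pi * x / M by ring]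
    congr 1
    field_simp
  simp_rw [e1] at h1 h2
  have hi : Integrable (KK M) := by
    have := h1.const_mul M
    refine this.congr (ae_of_all _ fun x => ?_)
    simp only
    rw [← mul_assoc, mul_inv_cancel₀ hM.ne', one_mul]
  refine ⟨hi, ?_⟩
  rw [integral_const_mul] at h2
  field_simp at h2
  linarith

theorem ph_int {k : ℝ} (hk : 0 < k) (_ : k ≤ 1 / 8) (L : ℝ) : Integrable (ph k L) ∧ ∫ x, ph k L x = Mk k L := by
  have h1 : ∀ j ∈ Sc k L, Integrable (KK ((1 + k) ^ j)) := fun j _ => (KK_full (by positivity)).1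
  have e : ph k L = fun x => wk k L * ∑ j ∈ Sc k L, KK ((1 + k) ^ j) x := funext fun x => ph_eq k L x
  rw [e]
  constructor
  · exact (integrable_finsetSum _ h1).const_mul _
  · rw [integral_const_mul, integral_finsetSum _ h1]
    unfold Mk
    congr 1
    exact Finset.sum_congr rfl fun j _ => (KK_full (by positivity)).2

end Pool.Agent.Helper38.NS
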